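import Pool.Agent.W_448C_h48.Arith

/-!
# The pieces of the first bad level inside one component (MP_448cb3_co): arithmetic
-/

namespace Pool.Agent.GaussPoset.Win

open Finset

/-- the possible defects of a path: `c k` on the edges `k < m`, `β` on the pair of the ends -/
def PcPat (m : ℕ) (c : ℕ → ℤ) (β : ℤ) : Prop :=
  (β = 0 ∧ ∀ k, k < m → c k = 0) ∨
  (2 ≤ m ∧ β = 1 ∧ c 0 = -1 ∧ ∀ k, 1 ≤ k → k < m → c k = 0) ∨
  (2 ≤ m ∧ β = 1 ∧ c (m - 1) = -1 ∧ ∀ k, k + 1 < m → c k = 0) ∨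
  (2 ≤ m ∧ β = 0 ∧ c 0 = 1 ∧ c 1 = -1 ∧ ∀ k, 2 ≤ k → k < m → c k = 0) ∨
  (2 ≤ m ∧ β = 0 ∧ c (m - 1) = 1 ∧ c (m - 2) = -1 ∧ ∀ k, k + 2 < m → c k = 0) ∨
  (5 ≤ m ∧ β = 0 ∧ c 0 = 1 ∧ c 1 = -1 ∧ c (m - 2) = -1 ∧ c (m - 1) = 1 ∧
    ∀ k, 2 ≤ k → k + 2 < m → c k = 0) ∨
  (m = 2 ∧ β = 2 ∧ c 0 = -1 ∧ c 1 = -1) ∨
  (m = 6 ∧ β = 0 ∧ c 0 = 1 ∧ c 1 = -1 ∧ c 4 = -1 ∧ c 5 = 1 ∧
    ((c 2 = -1 ∧ c 3 = 1) ∨ (c 2 = 1 ∧ c 3 = -1)))

lemma Pc_alt {c : ℕ → ℤ} {b : ℕ} {n : ℕ} (h : ∀ i, i < n → c (b + i) + c (b + i + 1) = 0) :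
    ∀ i, i ≤ n → c (b + i) = (-1) ^ i * c b := by
  intro i
  induction i with
  | zero => intro _; simp
  | succ i ih =>
    intro hi
    have h1 := h i (by omega)
    have h2 := ih (by omega)
    rw [← add_assoc, pow_succ]
    linarith

/-- the arithmetic of a path, one exceptional inner vertex `p + 1` -/
theorem Pc_arith {n p : ℕ} {c : ℕ → ℤ} {β : ℤ} (hc : ∀ k, k < n + 2 → -1 ≤ c k)
    (hs1 : ∀ a, a < n + 1 → a ≠ p → -1 ≤ c a + c (a + 1))
    (hs2 : ∀ a, a < n + 1 → c a + c (a + 1) ≤ 0)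
    (h0 : c 0 + β ≤ 1) (h1 : c (n + 1) + β ≤ 1) (hβ : 0 ≤ β)
    (E1 : ∑ k ∈ range (n + 2), c k + β = 0)
    (E2 : (c 0 + β) ^ 2 + (c (n + 1) + β) ^ 2 + ∑ a ∈ range (n + 1), (c a + c (a + 1)) ^ 2 =
      ∑ k ∈ range (n + 2), c k ^ 2 + β ^ 2)
    (iso : c 0 = 0 → c (n + 1) = 0 → β = 0) : PcPat (n + 2) c β := by
  by_cases hp : ∀ a, a < n + 1 → -1 ≤ c a + c (a + 1)
  · -- no exceptional vertex
    rcases Ar_strip hc hp hs2 h0 h1 hβ E1 E2 with h | ⟨a1, a2, a3⟩ | ⟨a1, a2, a3⟩ | ⟨a1, a2, a3, a4⟩ |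
      ⟨a1, a2, a3, a4⟩ | ⟨a1, a2, a3, a4⟩ | ⟨a1, a2, a3, a4, a5, a6, a7⟩
    · exact Or.inl h
    · exact Or.inr (Or.inl ⟨by omega, a1, a2, a3⟩)
    · exact Or.inr (Or.inr (Or.inl ⟨by omega, a1, a2, fun k hk => a3 k (by omega)⟩))
    · have := iso a2 a3
      omega
    · exact Or.inr (Or.inr (Or.inr (Or.inl ⟨by omega, a1, a2, a3, a4⟩)))
    · exact Or.inr (Or.inr (Or.inr (Or.inr (Or.inl ⟨by omega, a1, a2, a3,
        fun k hk => a4 k (by omega)⟩))))
    · exact Or.inr (Or.inr (Or.inr (Or.inr (Or.inr (Or.inl ⟨by omega, a1, a3, a4, a5, a6,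
        fun k hk hk2 => a7 k hk (by omega)⟩)))))
  · -- the exceptional vertex has lost both edges
    push Not at hp
    obtain ⟨q, hq, hq2⟩ := hp
    have hqp : q = p := by
      by_contra hne
      have := hs1 q hq hne
      omega
    subst hqp
    have g1 := hc q (by omega)
    have g2 := hc (q + 1) (by omega)
    have e1 : c q = -1 := by omega
    have e2 : c (q + 1) = -1 := by omega
    have S1 := Ar_sum_two n c
    have S2 : ∑ a ∈ range (n + 1), (c a + c (a + 1)) ≤ -2 := by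
      rw [← sum_erase_add _ _ (mem_range.2 hq), e1, e2]
      have : ∑ a ∈ (range (n + 1)).erase q, (c a + c (a + 1)) ≤ 0 := by
        refine sum_nonpos fun a ha => hs2 a ?_
        exact mem_range.1 (mem_of_mem_erase ha)
      linarith
    have f0 : c 0 = 1 - β := by linarith
    have f1 : c (n + 1) = 1 - β := by linarith
    have S3 : ∑ a ∈ (range (n + 1)).erase q, (c a + c (a + 1)) = 0 := by
      have h3 := sum_erase_add (range (n + 1)) (fun a => c a + c (a + 1)) (mem_range.2 hq)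
      rw [e1, e2] at h3
      linarith
    have D : ∀ a, a < n + 1 → a ≠ q → c a + c (a + 1) = 0 := by
      intro a ha hne
      have h3 := (sum_eq_zero_iff_of_nonpos (fun a ha => hs2 a
        (mem_range.1 (mem_of_mem_erase ha)))).1 S3 a (mem_erase.2 ⟨hne, mem_range.2 ha⟩)
      exact h3
    have S4 : ∑ a ∈ range (n + 1), (c a + c (a + 1)) ^ 2 = 4 := by
      rw [← sum_erase_add _ _ (mem_range.2 hq), e1, e2, sum_eq_zero]
      · norm_num
      · intro a ha
        rw [D a (mem_range.1 (mem_of_mem_erase ha)) (ne_of_mem_erase ha)]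
        norm_num
    have S5 : ∑ k ∈ range (n + 2), c k ^ 2 = 6 - β ^ 2 := by
      rw [S4, f0, f1] at E2
      linarith [E2]
    have hβ2 : β ≤ 2 := by
      have := hc 0 (by omega)
      omega
    have A1 : ∀ i, i ≤ q → c i = (-1) ^ i * c 0 := by
      intro i hi
      have := Pc_alt (c := c) (b := 0) (n := q) (fun i hi => by
        rw [Nat.zero_add]
        exact D i (by omega) (by omega)) i hi
      rwa [Nat.zero_add] at this
    have A2 : ∀ i, i ≤ n - q → c (q + 1 + i) = (-1) ^ i * c (q + 1) :=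
      Pc_alt (c := c) (b := q + 1) (n := n - q) (fun i hi => D (q + 1 + i) (by omega) (by omega))
    have hsq : ∀ k, k < n + 2 → c 0 ^ 2 = 1 → c k ^ 2 = 1 := by
      intro k hk h3
      rcases Nat.lt_or_ge q k with h4 | h4
      · have h5 := A2 (k - (q + 1)) (by omega)
        rw [show q + 1 + (k - (q + 1)) = k by omega, e2] at h5
        rw [h5, mul_pow, ← pow_mul, mul_comm _ 2, pow_mul]
        norm_num
      · rw [A1 k h4, mul_pow, h3, ← pow_mul, mul_comm _ 2, pow_mul]
        norm_num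
    have hcase : β = 0 ∨ β = 1 ∨ β = 2 := by omega
    rcases hcase with rfl | rfl | rfl
    · -- six edges
      have h3 : c 0 ^ 2 = 1 := by rw [f0]; norm_num
      have h4 : ∑ k ∈ range (n + 2), c k ^ 2 = (n : ℤ) + 2 := by
        rw [sum_congr rfl fun k hk => hsq k (mem_range.1 hk) h3, sum_const, card_range]
        simp
      have hn : n = 4 := by
        rw [h4] at S5
        have : (n : ℤ) = 4 := by linarith
        exact_mod_cast this
      subst hn
      have c0 : c 0 = 1 := by rw [f0]; norm_num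
      have c5 : c 5 = 1 := by
        have := f1
        norm_num at this
        exact this
      right; right; right; right; right; right; right
      have hq' : q = 0 ∨ q = 1 ∨ q = 2 ∨ q = 3 ∨ q = 4 := by omega
      rcases hq' with rfl | rfl | rfl | rfl | rfl
      · omega
      · have d1 := D 2 (by norm_num) (by norm_num)
        have d2 := D 3 (by norm_num) (by norm_num)
        norm_num at d1 d2 e1 e2
        exact ⟨rfl, rfl, c0, e1, by omega, c5, Or.inl ⟨e2, by omega⟩⟩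
      · have d1 := D 0 (by norm_num) (by norm_num)
        have d2 := D 1 (by norm_num) (by norm_num)
        norm_num at d1 d2 e1 e2
        omega
      · have d1 := D 0 (by norm_num) (by norm_num)
        have d2 := D 1 (by norm_num) (by norm_num)
        norm_num at d1 d2 e1 e2
        exact ⟨rfl, rfl, c0, by omega, e2, c5, Or.inr ⟨by omega, e1⟩⟩
      · norm_num at e1 e2
        omega
    · exfalso
      have c0 : c 0 = 0 := by rw [f0]; norm_num
      have := A1 q le_rfl
      rw [c0, e1] at this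
      norm_num at this
    · -- the triangle
      have c0 : c 0 = -1 := by rw [f0]; norm_num
      have h3 : c 0 ^ 2 = 1 := by rw [c0]; norm_num
      have h4 : ∑ k ∈ range (n + 2), c k ^ 2 = (n : ℤ) + 2 := by
        rw [sum_congr rfl fun k hk => hsq k (mem_range.1 hk) h3, sum_const, card_range]
        simp
      have hn : n = 0 := by
        rw [h4] at S5
        have : (n : ℤ) = 0 := by linarith
        exact_mod_cast this
      subst hn
      have hq0 : q = 0 := by omega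
      subst hq0
      right; right; right; right; right; right; left
      norm_num at e2
      exact ⟨rfl, rfl, c0, e2⟩

end Pool.Agent.GaussPoset.Win
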