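import Pool.Agent.W_448s6_h67.PcB

/-!
# S6 (MP_448cb3_co): the defects of the first bad level inside the components, no joins

All levels less than `j = i + 1` are good and no element of level `j + 1` is below two maximal elements.
In every component the defects `A = D - U` of level `j` are: none; a rotation (new pair of the ends, one
end edge lost); end doublings (`x_0 x_1` doubled, `x_1 x_2` lost) at one or both ends; the triangle
(three elements, pair of the ends doubled, both edges lost); or, in a row of seven elements, a doubling at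
both ends with alternating middle part.  In the last two cases an inner element has lost both edges, and
this element has a pendant below it.
-/

namespace Pool.Agent.GaussPoset.Win

set_option linter.unusedSectionVars false

open Finset

universe u

variable {P : Type u} [Fintype P] [PartialOrder P] [DecidableEq P] {r i : ℕ} {t : P}
  {lo hi : ℕ → ℕ} {x : ℕ → ℕ → P}

/-- two lower covers are below the same maximal element, if there are no joins -/
lemma GoodTo.top_of_dcv (h : GoodTo P r i) (hno : ∀ z : P, lev z = i + 1 → ¬ Hul.Jn z) {v v' : P}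
    (hv : lev v = i) (hv' : lev v' = i) (hd : 1 ≤ dcv v v') (ht : lev t = 0) (hvt : v ≤ t) :
    v' ≤ t := by
  obtain ⟨z, hz, hz'⟩ := StA_of_dcv hd
  have hlz := lev_cov h.H hz
  obtain ⟨s, hs, hs2⟩ := exists_above' (x := v') (j := 0) (Nat.zero_le _)
  by_contra hcon
  refine hno z (by omega) ⟨t, s, ht, hs2, ?_, hz.le.trans hvt, hz'.le.trans hs⟩
  rintro rfl
  exact hcon hs

lemma S6_cross (h : GoodTo P r i) (hno : ∀ z : P, lev z = i + 1 → ¬ Hul.Jn z) {t t' : P}
    (ht : t ∈ lv P 0) (ht' : t' ∈ lv P 0) (hne : t ≠ t') {v v' : P} (hv : v ∈ St.wt0 i t)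
    (hv' : v' ∈ St.wt0 i t') : v ≠ v' ∧ dcv v v' = 0 ∧ ucv v v' = 0 := by
  rw [St.mem_wt0] at hv hv'
  rw [mem_lv] at ht ht'
  have key : ¬ v' ≤ t := fun hc => hne (h.top_eq hv'.1.le ht ht' hc hv'.2)
  refine ⟨?_, ?_, ?_⟩
  · rintro rfl
    exact key hv.2
  · by_contra hcon
    exact key (h.top_of_dcv hno hv.1 hv'.1 (by omega) ht hv.2)
  · by_contra hcon
    exact key (h.top_of_ucv hv.1.le (by omega) ht hv.2)

/-- the matching polynomial of every component is one, if there are no joins -/
theorem S6_mp (h : GoodTo P r i) (hno : ∀ z : P, lev z = i + 1 → ¬ Hul.Jn z) {t : P}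
    (ht : lev t = 0) : St.mp (Df i) (St.wt0 i t) = 1 := by
  have h1 : St.mp (Df i) (lv P i) = 1 := St.mp_level h.H h.hr
  rw [St.lv_eq i, St.mp_biUnion (lv P 0) (St.wt0 i)] at h1
  · exact St.prod_one _ _ (fun i _ => St.coeff_zero_mp) h1 t (mem_lv.2 ht)
  · intro t ht t' ht' hne
    rw [disjoint_left]
    intro v hv hv'
    exact (S6_cross h hno ht ht' hne hv hv').1 rfl
  · intro t ht t' ht' hne u hu w hw
    obtain ⟨h2, h3, h4⟩ := S6_cross h hno ht ht' hne hu hw
    rw [Df_pair h.H (St.mem_wt0.1 hu).1 h2, h3, h4]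
    simp

/-- the row of level `i + 1` of a component -/
theorem Comp.rw_row (C : Comp P t (i + 1) lo hi x) (h : GoodTo P r (i + 1)) (hi1 : 1 ≤ i)
    (ht : lev t = 0) :
    Rw P (i + 1) t (hi (i + 1) - lo (i + 1)) (fun a => x (i + 1) (lo (i + 1) + a)) := by
  have hlohi := C.lohi (i + 1) le_rfl
  have hinj : ∀ a b, a ≤ hi (i + 1) - lo (i + 1) → b ≤ hi (i + 1) - lo (i + 1) →
      x (i + 1) (lo (i + 1) + a) = x (i + 1) (lo (i + 1) + b) → a = b := by
    intro a b ha hb he
    have := C.inj' le_rfl (by omega) (by omega) (by omega) (by omega) he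
    omega
  refine ⟨fun a ha => C.lev_x _ le_rfl _ (by omega) (by omega),
    fun a ha => C.le_t _ le_rfl _ (by omega) (by omega), hinj, ?_, ?_, ?_⟩
  · intro y hy hyt
    obtain ⟨a, a1, a2, rfl⟩ := C.surj (i + 1) le_rfl y hy hyt
    refine ⟨a - lo (i + 1), by omega, ?_⟩
    show x (i + 1) (lo (i + 1) + (a - lo (i + 1))) = x (i + 1) a
    congr 1
    omega
  · intro a b ha hb hab
    show ucv (x (i + 1) (lo (i + 1) + a)) (x (i + 1) (lo (i + 1) + b)) = _
    rw [C.ucv_eq h ht le_rfl (by omega) (by omega) (by omega) (by omega) (by omega)]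
    exact if_congr (by omega) rfl rfl
  · intro a b hab hb hd
    obtain ⟨z, hz, hz'⟩ := StA_of_dcv (Nat.one_le_iff_ne_zero.2 hd)
    have hl := C.lev_x (i + 1) le_rfl (lo (i + 1) + a) (by omega) (by omega)
    have hlz := lev_cov h.H hz
    have hu : ucv (x (i + 1) (lo (i + 1) + a)) (x (i + 1) (lo (i + 1) + b)) = 0 := by
      rw [C.ucv_eq h ht le_rfl (by omega) (by omega) (by omega) (by omega) (by omega),
        if_neg (by omega)]
    have hne : x (i + 1) (lo (i + 1) + a) ≠ x (i + 1) (lo (i + 1) + b) := fun he => by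
      have := hinj a b (by omega) hb he
      omega
    have h1 := (near_level' h hi1).1 z _ _ (by omega) hz hz' hne
    rw [hu] at h1
    rcases h1 with h1 | ⟨h1, h2, -⟩
    · omega
    · have e1 := C.uc_two h ht (k := i) (a := lo (i + 1) + a) (by omega) (by omega) (by omega)
      have e2 := C.uc_two h ht (k := i) (a := lo (i + 1) + b) (by omega) (by omega) (by omega)
      rw [h1] at e1
      rw [h2] at e2
      have e3 : ¬ (lo i < lo (i + 1) + a ∧ lo (i + 1) + a ≤ hi i) := fun h3 => by
        have := e1.2 h3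
        omega
      have e4 : ¬ (lo i < lo (i + 1) + b ∧ lo (i + 1) + b ≤ hi i) := fun h3 => by
        have := e2.2 h3
        omega
      have f1 := C.lo_le i (by omega)
      have f2 := C.lo_ge i (by omega)
      have f3 := C.hi_le i (by omega)
      have f4 := C.hi_ge i (by omega)
      have g1 : a = 0 := by omega
      have g2 : b = hi (i + 1) - lo (i + 1) := by omega
      subst g1
      refine ⟨rfl, g2, h1, ?_⟩
      rw [← g2]
      exact h2

/-- an inner element without double lower covers has a pendant below it -/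
theorem S6_pendant (C : Comp P t (i + 1) lo hi x) (h : GoodTo P r (i + 1)) (hi1 : 1 ≤ i)
    (hr : i + 2 ≤ r) (hno : ∀ z : P, lev z = i + 2 → ¬ Hul.Jn z) (ht : lev t = 0) {a : ℕ}
    (ha : lo (i + 1) < a) (ha' : a < hi (i + 1))
    (h1 : dcv (x (i + 1) (a - 1)) (x (i + 1) a) = 0)
    (h2 : dcv (x (i + 1) a) (x (i + 1) (a + 1)) = 0) : 1 ≤ (pen (x (i + 1) a)).card := by
  have hl := C.lev_x (i + 1) le_rfl a ha.le ha'.le
  obtain ⟨z, hz⟩ := exists_dc h.H (v := x (i + 1) a) (by omega)
  have hlz := lev_cov h.H hz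
  rcases uc_card_cases h.H (x := z) (by omega) with h3 | h3
  · exact Finset.card_pos.2 ⟨z, mem_pen.2 ⟨hz, h3⟩⟩
  · exfalso
    obtain ⟨v, hv, hne⟩ := exists_other_uc (y := x (i + 1) a) h3
    have hlv := lev_cov h.H hv
    have hvt := h.top_of_dcv hno hl (by omega) (StA_dcv_pos hz hv) ht
      (C.le_t (i + 1) le_rfl a ha.le ha'.le)
    obtain ⟨b, b1, b2, rfl⟩ := C.surj (i + 1) le_rfl v (by omega) hvt
    have hab : a ≠ b := fun he => hne (by rw [he])
    have S := C.rw_row h hi1 ht
    rcases Nat.lt_or_ge a b with h4 | h4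
    · rcases Nat.lt_or_ge (a + 1) b with h5 | h5
      · have h6 := S.far (a - lo (i + 1)) (b - lo (i + 1)) (by omega) (by omega) (by
          show dcv (x (i + 1) (lo (i + 1) + (a - lo (i + 1))))
            (x (i + 1) (lo (i + 1) + (b - lo (i + 1)))) ≠ 0
          rw [show lo (i + 1) + (a - lo (i + 1)) = a by omega,
            show lo (i + 1) + (b - lo (i + 1)) = b by omega]
          have := StA_dcv_pos hz hv
          omega)
        omega
      · rw [show a + 1 = b by omega] at h2
        have := StA_dcv_pos hz hv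
        omega
    · rcases Nat.lt_or_ge (b + 1) a with h5 | h5
      · have h6 := S.far (b - lo (i + 1)) (a - lo (i + 1)) (by omega) (by omega) (by
          show dcv (x (i + 1) (lo (i + 1) + (b - lo (i + 1))))
            (x (i + 1) (lo (i + 1) + (a - lo (i + 1)))) ≠ 0
          rw [show lo (i + 1) + (a - lo (i + 1)) = a by omega,
            show lo (i + 1) + (b - lo (i + 1)) = b by omega]
          have := StA_dcv_pos hv hz
          omega)
        omega
      · rw [show a - 1 = b by omega] at h1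
        have := StA_dcv_pos hv hz
        omega

/-- at most one inner element has a pendant -/
lemma S5c_pen (hS : S5c lo hi x i) : ∃ q, ∀ a, lo i < a → a ≤ hi i → a ≠ q →
    (pen (x (i + 1) a)).card = 0 := by
  rcases hS with ⟨-, -, h1⟩ | ⟨-, -, b, -, h1⟩ | ⟨-, -, b, -, h1⟩
  · exact ⟨0, fun a h2 h3 _ => h1 a h2 h3⟩
  · exact ⟨b, fun a h2 h3 h4 => by rw [h1 a h2 h3, if_neg h4]⟩
  · exact ⟨b, fun a h2 h3 h4 => by rw [h1 a h2 h3, if_neg h4]⟩

/-- S6.  All levels less than `j = i + 1` are good, `i ≥ 1`, and no element of level `j + 1` is below two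
maximal elements.  Then the defects of level `j` in the component of `t` are given by `c` (on the edges of
the path) and `β` (on the pair of the ends), of one of the forms of `PcPat`; `β ≠ 0` only if both ends are
single-up; an inner element with two lost edges has exactly one pendant. -/
theorem S6_pieces (h : GoodTo P r (i + 1)) (hi1 : 1 ≤ i) (hr : i + 2 ≤ r)
    (hno : ∀ z : P, lev z = i + 2 → ¬ Hul.Jn z) (ht : lev t = 0) (C : Comp P t (i + 1) lo hi x) :
    ∃ (c : ℕ → ℤ) (β : ℤ), PcPat (hi (i + 1) - lo (i + 1)) c β ∧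
      (∀ a b, lo (i + 1) ≤ a → a < b → b ≤ hi (i + 1) →
        (dcv (x (i + 1) a) (x (i + 1) b) : ℤ) - ucv (x (i + 1) a) (x (i + 1) b) =
          if b = a + 1 then c (a - lo (i + 1)) else
          if a = lo (i + 1) ∧ b = hi (i + 1) then β else 0) ∧
      (β ≠ 0 → (uc (x (i + 1) (lo (i + 1)))).card = 1 ∧ (uc (x (i + 1) (hi (i + 1)))).card = 1) ∧
      (∀ a, lo (i + 1) < a → a < hi (i + 1) → c (a - 1 - lo (i + 1)) = -1 →
        c (a - lo (i + 1)) = -1 → (pen (x (i + 1) a)).card = 1) := by
  have S := C.rw_row h hi1 ht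
  have hlohi := C.lohi (i + 1) le_rfl
  have hS5 := (near_level' h hi1).2 t lo hi x ht C
  set m := hi (i + 1) - lo (i + 1) with hm
  set X : ℕ → P := fun a => x (i + 1) (lo (i + 1) + a) with hX
  have hXe : ∀ a, lo (i + 1) ≤ a → X (a - lo (i + 1)) = x (i + 1) a := by
    intro a ha
    show x (i + 1) (lo (i + 1) + (a - lo (i + 1))) = x (i + 1) a
    congr 1
    omega
  have hSV : St.wt0 (i + 1) t = SV m X := by
    ext v
    unfold SV
    rw [St.mem_wt0, mem_image]
    constructor
    · rintro ⟨h1, h2⟩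
      obtain ⟨a, ha, hx⟩ := S.surj v h1 h2
      exact ⟨a, mem_range.2 (by omega), hx⟩
    · rintro ⟨a, ha, rfl⟩
      rw [mem_range] at ha
      exact ⟨S.lev_x a (by omega), S.le_t a (by omega)⟩
  have hmp : St.mp (Df (i + 1)) (SV m X) = 1 := by
    rw [← hSV]
    exact S6_mp h hno ht
  obtain ⟨q, hq⟩ := S5c_pen hS5
  have f1 := C.lo_le i (by omega)
  have f2 := C.lo_ge i (by omega)
  have f3 := C.hi_le i (by omega)
  have f4 := C.hi_ge i (by omega)
  obtain ⟨c, β, hpat, hc, hβ⟩ := S.cases h.H hmp (p := q - 1 - lo (i + 1)) (by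
    intro a ha hap
    by_contra hcon
    have h3 : 1 ≤ (pen (x (i + 1) (lo (i + 1) + a + 1))).card := by
      refine S6_pendant C h hi1 hr hno ht (by omega) (by omega) ?_ ?_
      · have : dcv (X a) (X (a + 1)) = 0 := by omega
        exact this
      · have : dcv (X (a + 1)) (X (a + 2)) = 0 := by omega
        exact this
    rw [hq (lo (i + 1) + a + 1) (by omega) (by omega) (by omega)] at h3
    omega)
  have hval : ∀ a b, lo (i + 1) ≤ a → a < b → b ≤ hi (i + 1) →
      (dcv (x (i + 1) a) (x (i + 1) b) : ℤ) - ucv (x (i + 1) a) (x (i + 1) b) =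
        Df (i + 1) {X (a - lo (i + 1)), X (b - lo (i + 1))} := by
    intro a b h1 h2 h3
    rw [hXe a h1, hXe b (by omega), Df_pair h.H (C.lev_x _ le_rfl a h1 (by omega))
      (C.inj _ le_rfl a b h1 h2 h3)]
  refine ⟨c, β, hpat, ?_, ?_, ?_⟩
  · intro a b h1 h2 h3
    rw [hval a b h1 h2 h3]
    split_ifs with h4 h5
    · have h6 := hc (a - lo (i + 1)) (by omega)
      rw [← h6, show b - lo (i + 1) = a - lo (i + 1) + 1 by omega]
    · have h6 := hβ (by omega)
      rw [← h6, show a - lo (i + 1) = 0 by omega, show b - lo (i + 1) = m by omega]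
    · exact S.onStrip h.H _ _ (by omega) (by omega) (by omega)
  · intro hβ0
    by_cases hm2 : 2 ≤ m
    · have h6 := hβ hm2
      rw [S.Df_ends h.H hm2] at h6
      have h7 : dcv (X 0) (X m) ≠ 0 := by
        intro h8
        rw [h8] at h6
        exact hβ0 (by rw [← h6]; norm_num)
      obtain ⟨-, -, h8, h9⟩ := S.far 0 m (by omega) le_rfl h7
      refine ⟨h8, ?_⟩
      have h10 : X m = x (i + 1) (hi (i + 1)) := by
        show x (i + 1) (lo (i + 1) + m) = x (i + 1) (hi (i + 1))
        congr 1
        omega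
      rw [← h10]
      exact h9
    · exfalso
      rcases hpat with ⟨e, -⟩ | ⟨e, -⟩ | ⟨e, -⟩ | ⟨e, -⟩ | ⟨e, -⟩ | ⟨e, -⟩ | ⟨e, -⟩ | ⟨e, -⟩
      · exact hβ0 e
      all_goals omega
  · intro a h1 h2 h3 h4
    have e1 : Df (i + 1) {X (a - 1 - lo (i + 1)), X (a - lo (i + 1))} = -1 := by
      rw [← h3, ← hc (a - 1 - lo (i + 1)) (by omega),
        show a - lo (i + 1) = a - 1 - lo (i + 1) + 1 by omega]
    have e2 : Df (i + 1) {X (a - lo (i + 1)), X (a + 1 - lo (i + 1))} = -1 := by
      rw [← h4, ← hc (a - lo (i + 1)) (by omega),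
        show a + 1 - lo (i + 1) = a - lo (i + 1) + 1 by omega]
    rw [← hval (a - 1) a (by omega) (by omega) (by omega),
      C.ucv_lt h ht le_rfl (by omega) (by omega) (by omega), if_pos (by omega)] at e1
    rw [← hval a (a + 1) (by omega) (by omega) (by omega),
      C.ucv_lt h ht le_rfl (by omega) (by omega) (by omega), if_pos rfl] at e2
    have h5 := S6_pendant C h hi1 hr hno ht h1 h2 (by omega) (by omega)
    have h6 : (pen (x (i + 1) a)).card ≤ 1 := by
      rcases hS5 with ⟨-, -, g1⟩ | ⟨-, -, b, -, g1⟩ | ⟨-, -, b, -, g1⟩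
      · rw [g1 a (by omega) (by omega)]
        omega
      · rw [g1 a (by omega) (by omega)]
        split_ifs <;> omega
      · rw [g1 a (by omega) (by omega)]
        split_ifs <;> omega
    omega

end Pool.Agent.GaussPoset.Win
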