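import Pool.Agent.W_448s6_h67.PcA
import Pool.Agent.W_448cr_h63.CH
import Pool.Agent.W_448C_h48.StE
import Pool.Agent.W_448st_h88.MgG

/-!
# The pieces of the first bad level inside one component (MP_448cb3_co): a row of elements
-/

namespace Pool.Agent.GaussPoset.Win

set_option linter.unusedSectionVars false

open Finset

universe u

variable {P : Type u} [Fintype P] [PartialOrder P] [DecidableEq P] {r j : ℕ} {t : P} {m : ℕ}
  {x : ℕ → P}

/-- the elements of level `j` below `t`: a path; no new edges except at the pair of the ends -/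
structure Rw (P : Type u) [Fintype P] [PartialOrder P] [DecidableEq P] (j : ℕ) (t : P) (m : ℕ)
    (x : ℕ → P) : Prop where
  lev_x : ∀ a, a ≤ m → lev (x a) = j
  le_t : ∀ a, a ≤ m → x a ≤ t
  inj : ∀ a b, a ≤ m → b ≤ m → x a = x b → a = b
  surj : ∀ y, lev y = j → y ≤ t → ∃ a, a ≤ m ∧ x a = y
  ucv_x : ∀ a b, a ≤ m → b ≤ m → a ≠ b →
    ucv (x a) (x b) = if a + 1 = b ∨ b + 1 = a then 1 else 0
  far : ∀ a b, a + 1 < b → b ≤ m → dcv (x a) (x b) ≠ 0 →
    a = 0 ∧ b = m ∧ (uc (x 0)).card = 1 ∧ (uc (x m)).card = 1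

lemma Rw.sum_SV (S : Rw P j t m x) (f : P → ℤ) :
    ∑ v ∈ SV m x, f v = ∑ a ∈ range (m + 1), f (x a) := by
  unfold SV
  rw [sum_image]
  intro a ha b hb hab
  rw [mem_coe, mem_range] at ha hb
  exact S.inj a b (by omega) (by omega) hab

lemma Rw.sum_SV_erase (S : Rw P j t m x) {a : ℕ} (ha : a ≤ m) (f : P → ℤ) :
    ∑ v ∈ (SV m x).erase (x a), f v = ∑ b ∈ (range (m + 1)).erase a, f (x b) := by
  have h1 := sum_erase_add (SV m x) f (mem_SV ha)
  have h2 := sum_erase_add (range (m + 1)) (fun b => f (x b)) (mem_range.2 (show a < m + 1 by omega))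
  rw [S.sum_SV] at h1
  linarith

lemma Rw.row_first (S : Rw P j t m x) (hm : 2 ≤ m) {g : Finset P → ℤ} (hg : OnStrip m x g) :
    St.dg g (SV m x) (x 0) = g {x 0, x 1} + g {x 0, x m} := by
  unfold St.dg
  rw [S.sum_SV_erase (Nat.zero_le m)]
  refine StE_sum_two (f := fun b => g {x 0, x b}) (by omega) ?_ ?_ ?_
  · rw [mem_erase, mem_range]
    omega
  · rw [mem_erase, mem_range]
    omega
  · intro b hb h1 h2
    rw [mem_erase, mem_range] at hb
    exact hg 0 b (by omega) (by omega) (by omega)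

lemma Rw.row_last (S : Rw P j t m x) (hm : 2 ≤ m) {g : Finset P → ℤ} (hg : OnStrip m x g) :
    St.dg g (SV m x) (x m) = g {x (m - 1), x m} + g {x 0, x m} := by
  unfold St.dg
  rw [S.sum_SV_erase le_rfl]
  rw [pair_comm (x (m - 1)) (x m), pair_comm (x 0) (x m)]
  refine StE_sum_two (f := fun b => g {x m, x b}) (by omega) ?_ ?_ ?_
  · rw [mem_erase, mem_range]
    omega
  · rw [mem_erase, mem_range]
    omega
  · intro b hb h1 h2
    rw [mem_erase, mem_range] at hb
    show g {x m, x b} = 0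
    rw [pair_comm]
    exact hg b m (by omega) le_rfl (by omega)

lemma Rw.row_mid (S : Rw P j t m x) {g : Finset P → ℤ} (hg : OnStrip m x g) {a : ℕ}
    (ha : a + 1 < m) :
    St.dg g (SV m x) (x (a + 1)) = g {x a, x (a + 1)} + g {x (a + 1), x (a + 2)} := by
  unfold St.dg
  rw [S.sum_SV_erase (show a + 1 ≤ m by omega)]
  rw [pair_comm (x a) (x (a + 1))]
  refine StE_sum_two (f := fun b => g {x (a + 1), x b}) (by omega) ?_ ?_ ?_
  · rw [mem_erase, mem_range]
    omega
  · rw [mem_erase, mem_range]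
    omega
  · intro b hb h1 h2
    rw [mem_erase, mem_range] at hb
    show g {x (a + 1), x b} = 0
    rcases Nat.lt_or_ge b (a + 1) with h3 | h3
    · rw [pair_comm]
      exact hg b (a + 1) (by omega) (by omega) (by omega)
    · exact hg (a + 1) b (by omega) (by omega) (by omega)

lemma Rw.sum_split (S : Rw P j t m x) {n : ℕ} (hm : m = n + 2) (f : P → ℤ) :
    ∑ v ∈ SV m x, f v = f (x 0) + f (x m) + ∑ a ∈ range (n + 1), f (x (a + 1)) := by
  rw [S.sum_SV, hm, sum_range_succ, sum_range_succ']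
  ring

lemma Rw.ne (S : Rw P j t m x) {a b : ℕ} (hab : a < b) (hb : b ≤ m) : x a ≠ x b := fun he => by
  have := S.inj a b (by omega) hb he
  omega

lemma Rw.Df_adj (S : Rw P j t m x) (H : Gr P r) {k : ℕ} (hk : k < m) :
    Df j {x k, x (k + 1)} = (dcv (x k) (x (k + 1)) : ℤ) - 1 := by
  rw [StE_Df H (S.lev_x k hk.le) (S.ne (Nat.lt_succ_self k) hk),
    S.ucv_x k (k + 1) hk.le hk (by omega), if_pos (Or.inl rfl)]
  norm_num

lemma Rw.Df_ends (S : Rw P j t m x) (H : Gr P r) (hm : 2 ≤ m) :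
    Df j {x 0, x m} = (dcv (x 0) (x m) : ℤ) := by
  rw [StE_Df H (S.lev_x 0 (by omega)) (S.ne (by omega) le_rfl),
    S.ucv_x 0 m (by omega) le_rfl (by omega), if_neg (by omega)]
  norm_num

lemma Rw.dcv_far (S : Rw P j t m x) {a b : ℕ} (hab : a + 1 < b) (hb : b ≤ m)
    (hne : ¬ (a = 0 ∧ b = m)) : dcv (x a) (x b) = 0 := by
  by_contra hcon
  obtain ⟨h1, h2, -⟩ := S.far a b hab hb hcon
  exact hne ⟨h1, h2⟩

lemma Rw.onStrip (S : Rw P j t m x) (H : Gr P r) : OnStrip m x (Df j) := by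
  intro a b hab hb hne
  rw [StE_Df H (S.lev_x a (by omega)) (S.ne (by omega) hb), S.dcv_far hab hb hne,
    S.ucv_x a b (by omega) hb (by omega), if_neg (by omega)]
  norm_num

/-- at most two double lower covers -/
lemma Rw.degD_le (S : Rw P j t m x) (H : Gr P r) {a : ℕ} (ha : a ≤ m) :
    ∑ b ∈ (range (m + 1)).erase a, (dcv (x a) (x b) : ℤ) ≤ 2 := by
  classical
  have h1 : ∀ b, dcv (x a) (x b) = ∑ z ∈ dc (x a), if z ⋖ x b then 1 else 0 := by
    intro b
    unfold dcv
    rw [← Finset.card_filter]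
    congr 1
    ext z
    simp only [mem_filter, mem_univ, true_and, mem_dc]
  have h2 : ∑ b ∈ (range (m + 1)).erase a, dcv (x a) (x b) ≤ (dc (x a)).card := by
    rw [Finset.sum_congr rfl fun b _ => h1 b, Finset.sum_comm, Finset.card_eq_sum_ones]
    refine Finset.sum_le_sum fun z hz => ?_
    rw [← Finset.card_filter]
    rw [mem_dc] at hz
    by_contra hcon
    obtain ⟨b, hb, b', hb', hbb⟩ := Finset.one_lt_card.1 (not_le.1 hcon)
    rw [mem_filter, mem_erase, mem_range] at hb hb'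
    have h3 : ({x a, x b, x b'} : Finset P) ⊆ uc z := by
      intro w hw
      simp only [mem_insert, mem_singleton] at hw
      rw [mem_uc]
      rcases hw with rfl | rfl | rfl
      · exact hz
      · exact hb.2
      · exact hb'.2
    have h4 : x b ≠ x b' := fun he => hbb (S.inj b b' (by omega) (by omega) he)
    have h5 : x a ≠ x b := fun he => hb.1.1 (S.inj a b (by omega) (by omega) he).symm
    have h6 : x a ≠ x b' := fun he => hb'.1.1 (S.inj a b' (by omega) (by omega) he).symm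
    have h7 := Finset.card_le_card h3
    rw [Finset.card_insert_of_notMem (by simp [h5, h6]), Finset.card_pair h4] at h7
    have := uc_card_le H z
    omega
  have h3 := dc_card_le H (x a)
  have h4 : (∑ b ∈ (range (m + 1)).erase a, (dcv (x a) (x b) : ℤ)) =
      ((∑ b ∈ (range (m + 1)).erase a, dcv (x a) (x b) : ℕ) : ℤ) := by
    push_cast
    rfl
  rw [h4]
  exact_mod_cast h2.trans h3

/-- the row sums of the common covers -/
lemma Rw.dcv_mid (S : Rw P j t m x) {a : ℕ} (ha : a + 1 < m) :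
    ∑ b ∈ (range (m + 1)).erase (a + 1), (dcv (x (a + 1)) (x b) : ℤ) =
      dcv (x a) (x (a + 1)) + dcv (x (a + 1)) (x (a + 2)) := by
  rw [StB_dcv_comm (x a) (x (a + 1))]
  refine StE_sum_two (f := fun b => (dcv (x (a + 1)) (x b) : ℤ)) (by omega) ?_ ?_ ?_
  · rw [mem_erase, mem_range]
    omega
  · rw [mem_erase, mem_range]
    omega
  · intro b hb h1 h2
    rw [mem_erase, mem_range] at hb
    rcases Nat.lt_or_ge b (a + 1) with h3 | h3
    · rw [StB_dcv_comm, S.dcv_far (by omega) (by omega) (by omega)]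
      rfl
    · rw [S.dcv_far (by omega) (by omega) (by omega)]
      rfl

lemma Rw.dcv_first (S : Rw P j t m x) (hm : 2 ≤ m) :
    ∑ b ∈ (range (m + 1)).erase 0, (dcv (x 0) (x b) : ℤ) = dcv (x 0) (x 1) + dcv (x 0) (x m) := by
  refine StE_sum_two (f := fun b => (dcv (x 0) (x b) : ℤ)) (by omega) ?_ ?_ ?_
  · rw [mem_erase, mem_range]
    omega
  · rw [mem_erase, mem_range]
    omega
  · intro b hb h1 h2
    rw [mem_erase, mem_range] at hb
    rw [S.dcv_far (by omega) (by omega) (by omega)]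
    rfl

lemma Rw.dcv_last (S : Rw P j t m x) (hm : 2 ≤ m) :
    ∑ b ∈ (range (m + 1)).erase m, (dcv (x m) (x b) : ℤ) =
      dcv (x (m - 1)) (x m) + dcv (x 0) (x m) := by
  rw [StB_dcv_comm (x (m - 1)) (x m), StB_dcv_comm (x 0) (x m)]
  refine StE_sum_two (f := fun b => (dcv (x m) (x b) : ℤ)) (by omega) ?_ ?_ ?_
  · rw [mem_erase, mem_range]
    omega
  · rw [mem_erase, mem_range]
    omega
  · intro b hb h1 h2
    rw [mem_erase, mem_range] at hb
    rw [StB_dcv_comm, S.dcv_far (by omega) (by omega) (by omega)]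
    rfl

/-- the pair of the ends is not an isolated piece -/
lemma Rw.iso (S : Rw P j t m x) (H : Gr P r) (hm : 2 ≤ m) (hmp : St.mp (Df j) (SV m x) = 1)
    (h0 : Df j {x 0, x 1} = 0) (h1 : Df j {x (m - 1), x m} = 0) : Df j {x 0, x m} = 0 := by
  have hon := S.onStrip H
  have hsub : ({x 0, x m} : Finset P) ⊆ SV m x := by
    intro v hv
    rw [mem_insert, mem_singleton] at hv
    rcases hv with rfl | rfl
    · exact mem_SV (Nat.zero_le m)
    · exact mem_SV le_rfl
  have hd : Disjoint ({x 0, x m} : Finset P) (SV m x \ {x 0, x m}) := disjoint_sdiff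
  have hcr : ∀ u ∈ ({x 0, x m} : Finset P), ∀ w ∈ SV m x \ {x 0, x m}, Df j {u, w} = 0 := by
    intro u hu w hw
    rw [mem_sdiff] at hw
    obtain ⟨hw1, hw2⟩ := hw
    unfold SV at hw1
    obtain ⟨b, hb, rfl⟩ := mem_image.1 hw1
    rw [mem_range] at hb
    rw [mem_insert, mem_singleton, not_or] at hw2
    have hb0 : b ≠ 0 := fun he => hw2.1 (by rw [he])
    have hbm : b ≠ m := fun he => hw2.2 (by rw [he])
    rw [mem_insert, mem_singleton] at hu
    rcases hu with rfl | rfl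
    · rcases Nat.lt_or_ge 1 b with h2 | h2
      · exact hon 0 b (by omega) (by omega) (by omega)
      · rw [show b = 1 by omega]
        exact h0
    · rw [pair_comm]
      rcases Nat.lt_or_ge (b + 1) m with h2 | h2
      · exact hon b m (by omega) le_rfl (by omega)
      · rw [show b = m - 1 by omega]
        exact h1
  have h2 : St.mp (Df j) ({x 0, x m} ∪ (SV m x \ {x 0, x m})) = 1 := by
    rw [union_sdiff_of_subset hsub]
    exact hmp
  have h3 := St.mp_left hd hcr h2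
  rw [St.mp_two (S.ne (by omega) le_rfl)] at h3
  have h4 := congrArg (fun p : Polynomial ℤ => p.coeff 1) h3
  simpa [Polynomial.coeff_one] using h4

/-- THE DEFECTS OF A ROW whose matching polynomial is `1`; `p + 1` is the only inner element which
may have no double lower cover -/
theorem Rw.cases (S : Rw P j t m x) (H : Gr P r) (hmp : St.mp (Df j) (SV m x) = 1) {p : ℕ}
    (hp : ∀ a, a + 1 < m → a ≠ p → 1 ≤ dcv (x a) (x (a + 1)) + dcv (x (a + 1)) (x (a + 2))) :
    ∃ (c : ℕ → ℤ) (β : ℤ), PcPat m c β ∧ (∀ k, k < m → Df j {x k, x (k + 1)} = c k) ∧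
      (2 ≤ m → Df j {x 0, x m} = β) := by
  have hP1' : ∑ u ∈ SV m x, St.dg (Df j) (SV m x) u = 0 := St.P2_eq_zero hmp
  have hP2' : 2 * ∑ u ∈ SV m x, St.dg (Df j) (SV m x) u ^ 2 =
      ∑ u ∈ SV m x, St.dg (fun T => Df j T ^ 2) (SV m x) u := St.sq_eq hmp
  rcases Nat.lt_or_ge m 2 with hm2 | hm2
  · refine ⟨fun _ => 0, 0, Or.inl ⟨rfl, fun _ _ => rfl⟩, ?_, fun h => by omega⟩
    intro k hk
    have hm1 : m = 1 := by omega
    subst hm1
    have hk0 : k = 0 := by omega
    subst hk0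
    have hd : ∀ a, a ≤ 1 → St.dg (Df j) (SV 1 x) (x a) = Df j {x 0, x 1} := by
      intro a ha
      unfold St.dg
      rw [S.sum_SV_erase ha]
      have hcase : a = 0 ∨ a = 1 := by omega
      rcases hcase with rfl | rfl
      · rw [show (range (1 + 1)).erase 0 = {1} by decide, sum_singleton]
      · rw [show (range (1 + 1)).erase 1 = {0} by decide, sum_singleton, pair_comm]
    rw [S.sum_SV, show range (1 + 1) = {0, 1} by decide, sum_pair (by norm_num), hd 0 (by omega),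
      hd 1 le_rfl] at hP1'
    show Df j {x 0, x 1} = 0
    linarith
  obtain ⟨n, hn⟩ : ∃ n, m = n + 2 := ⟨m - 2, by omega⟩
  have hon := S.onStrip H
  have hon2 : OnStrip m x (fun T => Df j T ^ 2) := by
    intro a b h1 h2 h3
    show Df j {x a, x b} ^ 2 = 0
    rw [hon a b h1 h2 h3]
    norm_num
  -- the defects
  obtain ⟨c, hc⟩ : ∃ c : ℕ → ℤ, ∀ k, c k = Df j {x k, x (k + 1)} := ⟨_, fun _ => rfl⟩
  obtain ⟨β, hβ⟩ : ∃ β : ℤ, β = Df j {x 0, x m} := ⟨_, rfl⟩
  have hm1 : m - 1 = n + 1 := by omega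
  have hd0 : St.dg (Df j) (SV m x) (x 0) = c 0 + β := by
    rw [S.row_first hm2 hon, hc 0, hβ]
  have hdm : St.dg (Df j) (SV m x) (x m) = c (n + 1) + β := by
    rw [S.row_last hm2 hon, hc (n + 1), hβ, hm1, hn]
  have hdk : ∀ a, a < n + 1 → St.dg (Df j) (SV m x) (x (a + 1)) = c a + c (a + 1) := by
    intro a ha
    rw [S.row_mid hon (by omega), hc a, hc (a + 1)]
  have hq0 : St.dg (fun T => Df j T ^ 2) (SV m x) (x 0) = c 0 ^ 2 + β ^ 2 := by
    rw [S.row_first hm2 hon2, hc 0, hβ]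
  have hqm : St.dg (fun T => Df j T ^ 2) (SV m x) (x m) = c (n + 1) ^ 2 + β ^ 2 := by
    rw [S.row_last hm2 hon2, hc (n + 1), hβ, hm1, hn]
  have hqk : ∀ a, a < n + 1 →
      St.dg (fun T => Df j T ^ 2) (SV m x) (x (a + 1)) = c a ^ 2 + c (a + 1) ^ 2 := by
    intro a ha
    rw [S.row_mid hon2 (by omega), hc a, hc (a + 1)]
  -- the two sums
  have E1 : ∑ k ∈ range (n + 2), c k + β = 0 := by
    rw [S.sum_split hn, hd0, hdm,
      sum_congr rfl (fun a ha => hdk a (mem_range.1 ha)), Ar_sum_two] at hP1'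
    linarith
  have E2 : (c 0 + β) ^ 2 + (c (n + 1) + β) ^ 2 + ∑ a ∈ range (n + 1), (c a + c (a + 1)) ^ 2 =
      ∑ k ∈ range (n + 2), c k ^ 2 + β ^ 2 := by
    rw [S.sum_split hn, S.sum_split hn, hd0, hdm, hq0, hqm,
      sum_congr rfl (fun a ha => by rw [hdk a (mem_range.1 ha)]),
      sum_congr rfl (fun a ha => hqk a (mem_range.1 ha))] at hP2'
    have h3 : ∑ a ∈ range (n + 1), (c a ^ 2 + c (a + 1) ^ 2) =
        2 * ∑ k ∈ range (n + 2), c k ^ 2 - c 0 ^ 2 - c (n + 1) ^ 2 :=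
      Ar_sum_two n (fun k => c k ^ 2)
    rw [h3] at hP2'
    linarith
  -- the bounds
  have hcd : ∀ k, k < n + 2 → c k = (dcv (x k) (x (k + 1)) : ℤ) - 1 := by
    intro k hk
    rw [hc k, S.Df_adj H (by omega)]
  have hβd : β = (dcv (x 0) (x m) : ℤ) := by
    rw [hβ, S.Df_ends H hm2]
  have hlow : ∀ k, k < n + 2 → -1 ≤ c k := by
    intro k hk
    rw [hcd k hk]
    have := Int.natCast_nonneg (dcv (x k) (x (k + 1)))
    linarith
  have hs1 : ∀ a, a < n + 1 → a ≠ p → -1 ≤ c a + c (a + 1) := by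
    intro a ha hap
    have h3 := hp a (by omega) hap
    rw [hcd a (by omega), hcd (a + 1) (by omega)]
    have h4 : (1 : ℤ) ≤ (dcv (x a) (x (a + 1)) : ℤ) + (dcv (x (a + 1)) (x (a + 2)) : ℤ) := by
      exact_mod_cast h3
    show -1 ≤ (dcv (x a) (x (a + 1)) : ℤ) - 1 + ((dcv (x (a + 1)) (x (a + 2)) : ℤ) - 1)
    linarith
  have hs2 : ∀ a, a < n + 1 → c a + c (a + 1) ≤ 0 := by
    intro a ha
    have h3 := S.degD_le H (a := a + 1) (by omega)
    rw [S.dcv_mid (by omega)] at h3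
    rw [hcd a (by omega), hcd (a + 1) (by omega)]
    show (dcv (x a) (x (a + 1)) : ℤ) - 1 + ((dcv (x (a + 1)) (x (a + 2)) : ℤ) - 1) ≤ 0
    linarith
  have hb0 : c 0 + β ≤ 1 := by
    have h3 := S.degD_le H (a := 0) (by omega)
    rw [S.dcv_first hm2] at h3
    rw [hcd 0 (by omega), hβd]
    linarith
  have hb1 : c (n + 1) + β ≤ 1 := by
    have h3 := S.degD_le H (a := m) le_rfl
    rw [S.dcv_last hm2] at h3
    rw [hcd (n + 1) (by omega), hβd]
    have h4 : dcv (x (n + 1)) (x (n + 1 + 1)) = dcv (x (m - 1)) (x m) := by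
      rw [hm1, hn]
    rw [h4]
    linarith
  have hβ0 : 0 ≤ β := by
    rw [hβd]
    exact Int.natCast_nonneg _
  have hiso : c 0 = 0 → c (n + 1) = 0 → β = 0 := by
    intro e0 e1
    rw [hβ]
    refine S.iso H hm2 hmp ?_ ?_
    · rw [← e0, hc 0]
    · rw [← e1, hc (n + 1), hm1, hn]
  refine ⟨c, β, ?_, fun k _ => (hc k).symm, fun _ => hβ.symm⟩
  rw [hn]
  exact Pc_arith hlow hs1 hs2 hb0 hb1 hβ0 E1 E2 hiso

end Pool.Agent.GaussPoset.Win
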